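import Pool.Agent.Run7.h520.MZ.I
import Pool.Agent.Run7.h781.WO.RN

/-! Piece CAT (helper578) of helper520's project MP_5076ba_lc. -/

set_option autoImplicit false

namespace Pool.Agent.Run7.h578.MZ

open FirstOrder FirstOrder.Language
open _root_.Run7.h520.MZ

theorem cat : S_CAT := by
  intro hbas hforth hfint hinv
  have : Nonempty M0 := ⟨Sum.inl 0⟩
  refine _root_.Run7.h781.WO.rn LZ M0 (fun n => ?_)
  obtain ⟨F, hF, hF2⟩ := hfint (Fin n)
  refine ⟨F, hF, fun t => ?_⟩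
  obtain ⟨s, hs, hst⟩ := hF2 t
  exact ⟨s, hs, hinv hbas hforth (Fin n) s t hst⟩

end Pool.Agent.Run7.h578.MZ
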